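import Pool.Agent.Q26.CoxSgC

set_option autoImplicit false

namespace Pool.Agent.Results.MP_07fa45_al.SignExtension

open Pool.Agent.Q26.CoxSign

universe u

variable {B : Type u} (M : CoxeterMatrix B)

/-- Simultaneous conjugacy `(s, t) ∼ (s', t')` of pairs of simple reflections. -/
def SimConj (s t s' t' : B) : Prop :=
  ∃ g : M.Group, g * M.simple s * g⁻¹ = M.simple s' ∧ g * M.simple t * g⁻¹ = M.simple t'

/-- A sign choice (only the values at pairs `s ≠ t` with `m_{s,t}` finite are relevant; `M s t = 0`
encodes `m_{s,t} = ∞`). -/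
structure SignChoice where
  c : B → B → ℤˣ
  conj : ∀ s t s' t' : B, s ≠ t → M s t ≠ 0 → s' ≠ t' → M s' t' ≠ 0 → SimConj M s t s' t' →
    c s t = c s' t'
  symm : ∀ s t : B, s ≠ t → M s t ≠ 0 → c s t = c t s

variable {M}

/-- The defining relators of `W'`; the generator `q` is `none`, the generators `s ∈ S` are
`some s`. -/
inductive IsRelator (c : SignChoice M) : FreeGroup (Option B) → Prop
  | sq (s : B) : IsRelator c (FreeGroup.of (some s) ^ 2)
  | qq : IsRelator c (FreeGroup.of none ^ 2)
  | comm (s : B) : IsRelator c (FreeGroup.of none * FreeGroup.of (some s) *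
      (FreeGroup.of (some s) * FreeGroup.of none)⁻¹)
  | pos (s t : B) (hst : s ≠ t) (hm : M s t ≠ 0) (hc : c.c s t = 1) :
      IsRelator c ((FreeGroup.of (some s) * FreeGroup.of (some t)) ^ M s t)
  | neg (s t : B) (hst : s ≠ t) (hm : M s t ≠ 0) (hc : c.c s t = -1) :
      IsRelator c ((FreeGroup.of (some s) * FreeGroup.of (some t)) ^ M s t *
        (FreeGroup.of none)⁻¹)

/-- The group `W'`. -/
abbrev Ext (c : SignChoice M) : Type u := PresentedGroup {x | IsRelator c x}

/-- the generator `q` of `W'` -/
def q (c : SignChoice M) : Ext c := PresentedGroup.of none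

/-- the generator `s` of `W'` -/
def gen (c : SignChoice M) (s : B) : Ext c := PresentedGroup.of (some s)

lemma gen_sq (c : SignChoice M) (s : B) : gen c s ^ 2 = 1 := by
  have h := PresentedGroup.one_of_mem (rels := {x | IsRelator c x}) (IsRelator.sq s)
  rw [map_pow] at h
  exact h

lemma q_sq (c : SignChoice M) : q c ^ 2 = 1 := by
  have h := PresentedGroup.one_of_mem (rels := {x | IsRelator c x}) IsRelator.qq
  rw [map_pow] at h
  exact h

lemma q_comm (c : SignChoice M) (s : B) : q c * gen c s = gen c s * q c := by
  have h := PresentedGroup.one_of_mem (rels := {x | IsRelator c x}) (IsRelator.comm s)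
  rw [map_mul, map_inv, map_mul, map_mul, mul_inv_eq_one] at h
  exact h

lemma gen_pow_pos (c : SignChoice M) {s t : B} (hst : s ≠ t) (hm : M s t ≠ 0)
    (hc : c.c s t = 1) : (gen c s * gen c t) ^ M s t = 1 := by
  have h := PresentedGroup.one_of_mem (rels := {x | IsRelator c x}) (IsRelator.pos s t hst hm hc)
  rw [map_pow, map_mul] at h
  exact h

lemma gen_pow_neg (c : SignChoice M) {s t : B} (hst : s ≠ t) (hm : M s t ≠ 0)
    (hc : c.c s t = -1) : (gen c s * gen c t) ^ M s t = q c := by
  have h := PresentedGroup.one_of_mem (rels := {x | IsRelator c x}) (IsRelator.neg s t hst hm hc)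
  rw [map_mul, map_inv, map_pow, map_mul, mul_inv_eq_one] at h
  exact h

lemma simple_sq (s : B) : M.simple s ^ 2 = 1 := by
  rw [← M.toCoxeterSystem_simple]; exact M.toCoxeterSystem.simple_sq s

lemma simple_pow (s t : B) : (M.simple s * M.simple t) ^ M s t = 1 := by
  rw [← M.toCoxeterSystem_simple]; exact M.toCoxeterSystem.simple_mul_simple_pow s t

/-- The projection `π : W' → W` with `s ↦ s`, `q ↦ 1`. -/
def proj (c : SignChoice M) : Ext c →* M.Group :=
  PresentedGroup.toGroup (f := fun o : Option B => o.elim 1 M.simple) (by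
    intro r hr
    induction hr with
    | sq s => simpa using simple_sq s
    | qq => simp
    | comm s => simp
    | pos s t hst hm hc => simpa using simple_pow s t
    | neg s t hst hm hc => simpa using simple_pow s t)

@[simp] lemma proj_q (c : SignChoice M) : proj c (q c) = 1 := by
  simp [proj, q]

@[simp] lemma proj_gen (c : SignChoice M) (s : B) : proj c (gen c s) = M.simple s := by
  simp [proj, gen]

/-- The homomorphism `ι : ℤ/2 → W'` sending the generator to `q`. -/
def incl (c : SignChoice M) : Multiplicative (ZMod 2) →* Ext c where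
  toFun x := q c ^ (x.toAdd.val)
  map_one' := by simp
  map_mul' := by
    have h := q_sq c
    have key : ∀ a b : ZMod 2, q c ^ (a + b).val = q c ^ a.val * q c ^ b.val := by
      intro a b
      rw [← pow_add]
      fin_cases a <;> fin_cases b
      · rfl
      · rfl
      · rfl
      · exact h.symm
    intro x y
    exact key x.toAdd y.toAdd

lemma q_central (c : SignChoice M) (x : Ext c) : q c * x = x * q c := by
  have hx : x ∈ Subgroup.closure (Set.range (PresentedGroup.of (rels := {x | IsRelator c x}))) := by
    rw [PresentedGroup.closure_range_of]; trivial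
  induction hx using Subgroup.closure_induction with
  | mem x hx =>
    obtain ⟨o, rfl⟩ := hx
    cases o with
    | none => rfl
    | some s => exact q_comm c s
  | one => simp
  | mul x y _ _ hx hy => rw [← mul_assoc, hx, mul_assoc, hy, mul_assoc]
  | inv x _ hx =>
    have h : Commute (q c) x := hx
    exact (h.inv_right)

lemma range_incl (c : SignChoice M) : (incl c).range = Subgroup.zpowers (q c) := by
  ext x
  rw [MonoidHom.mem_range, Subgroup.mem_zpowers_iff]
  constructor
  · rintro ⟨a, rfl⟩
    refine ⟨((a.toAdd.val : ℕ) : ℤ), ?_⟩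
    rw [zpow_natCast]; rfl
  · rintro ⟨k, rfl⟩
    rcases Int.even_or_odd k with ⟨m, rfl⟩ | ⟨m, rfl⟩
    · refine ⟨1, ?_⟩
      have h : q c ^ (2 : ℤ) = 1 := by exact_mod_cast q_sq c
      rw [map_one, ← two_mul, zpow_mul, h, one_zpow]
    · refine ⟨Multiplicative.ofAdd 1, ?_⟩
      have h : q c ^ (2 : ℤ) = 1 := by exact_mod_cast q_sq c
      rw [zpow_add, zpow_mul, h, one_zpow, one_mul, zpow_one]
      change q c ^ (1 : ZMod 2).val = q c
      have : (1 : ZMod 2).val = 1 := rfl
      rw [this, pow_one]

instance (c : SignChoice M) : (Subgroup.zpowers (q c)).Normal := by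
  constructor
  intro n hn g
  rw [Subgroup.mem_zpowers_iff] at hn ⊢
  obtain ⟨k, rfl⟩ := hn
  refine ⟨k, ?_⟩
  have h : Commute (q c) g := q_central c g
  have h1 : q c ^ k * g = g * q c ^ k := (h.zpow_left k)
  rw [← h1]; group

/-- Exactness at `W'`. -/
lemma ker_proj (c : SignChoice M) : (proj c).ker = Subgroup.zpowers (q c) := by
  apply le_antisymm
  · -- the section modulo `q`
    have hlift : M.IsLiftable (fun s => (QuotientGroup.mk' (Subgroup.zpowers (q c))) (gen c s)) := by
      intro s t
      rw [← map_mul, ← map_pow]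
      rw [QuotientGroup.mk'_apply, QuotientGroup.eq_one_iff]
      by_cases hst : s = t
      · subst hst
        rw [M.diagonal, pow_one, ← sq, gen_sq]
        exact one_mem _
      · by_cases hm : M s t = 0
        · rw [hm, pow_zero]; exact one_mem _
        · rcases Int.units_eq_one_or (c.c s t) with hc | hc
          · rw [gen_pow_pos c hst hm hc]; exact one_mem _
          · rw [gen_pow_neg c hst hm hc]; exact Subgroup.mem_zpowers _
    have hcomp : (M.toCoxeterSystem.lift ⟨_, hlift⟩).comp (proj c) =
        QuotientGroup.mk' (Subgroup.zpowers (q c)) := by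
      apply PresentedGroup.ext
      intro o
      cases o with
      | none =>
        change (M.toCoxeterSystem.lift ⟨_, hlift⟩) (proj c (q c)) =
          QuotientGroup.mk' (Subgroup.zpowers (q c)) (q c)
        rw [proj_q, map_one, eq_comm, QuotientGroup.mk'_apply, QuotientGroup.eq_one_iff]
        exact Subgroup.mem_zpowers _
      | some s =>
        change (M.toCoxeterSystem.lift ⟨_, hlift⟩) (proj c (gen c s)) =
          QuotientGroup.mk' (Subgroup.zpowers (q c)) (gen c s)
        rw [proj_gen, ← M.toCoxeterSystem_simple, M.toCoxeterSystem.lift_apply_simple hlift]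
    intro x hx
    rw [MonoidHom.mem_ker] at hx
    have h := DFunLike.congr_fun hcomp x
    rw [MonoidHom.comp_apply, hx, map_one, eq_comm, QuotientGroup.mk'_apply,
      QuotientGroup.eq_one_iff] at h
    exact h
  · rw [Subgroup.zpowers_le, MonoidHom.mem_ker, proj_q]

lemma proj_surjective (c : SignChoice M) : Function.Surjective (proj c) := by
  rw [← MonoidHom.range_eq_top, eq_top_iff, ← M.toCoxeterSystem.subgroup_closure_range_simple,
    Subgroup.closure_le]
  rintro _ ⟨i, rfl⟩
  exact ⟨gen c i, by rw [proj_gen, M.toCoxeterSystem_simple]⟩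

/-- the permutation attached to `q` -/
def qE (W : Type u) : Equiv.Perm (W × ZMod 2) where
  toFun p := (p.1, p.2 + 1)
  invFun p := (p.1, p.2 + 1)
  left_inv p := by
    ext1
    · rfl
    · change p.2 + 1 + 1 = p.2
      rw [add_assoc, add_self_zmod2, add_zero]
  right_inv p := by
    ext1
    · rfl
    · change p.2 + 1 + 1 = p.2
      rw [add_assoc, add_self_zmod2, add_zero]

lemma inv_of (c : SignChoice M) : Inv M.toCoxeterSystem c.c where
  conj i j i' j' hij h0 hij' h0' g h1 h2 := by
    apply c.conj i j i' j' hij h0 hij' h0'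
    refine ⟨g, ?_, ?_⟩
    · simpa only [M.toCoxeterSystem_simple] using h1
    · simpa only [M.toCoxeterSystem_simple] using h2
  symm := c.symm

lemma stepE_qE [Fintype B] [DecidableEq B] (c : SignChoice M) (s : B) :
    qE M.Group * stepE M.toCoxeterSystem c.c s = stepE M.toCoxeterSystem c.c s * qE M.Group := by
  ext1 ⟨w, ε⟩
  change ((step M.toCoxeterSystem c.c s (w, ε)).1, (step M.toCoxeterSystem c.c s (w, ε)).2 + 1) =
    step M.toCoxeterSystem c.c s (w, ε + 1)
  unfold step
  simp only
  rw [add_right_comm]

/-- The action of `W'` on `W × ℤ/2`. -/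
noncomputable def action [Fintype B] [DecidableEq B] (c : SignChoice M) :
    Ext c →* Equiv.Perm (M.Group × ZMod 2) :=
  PresentedGroup.toGroup
    (f := fun o : Option B => o.elim (qE M.Group) (stepE M.toCoxeterSystem c.c)) (by
    intro r hr
    have hq2 : qE M.Group * qE M.Group = 1 := by
      ext1 p
      exact (qE M.Group).left_inv p
    induction hr with
    | sq s => simpa [sq] using stepE_mul_self M.toCoxeterSystem c.c s
    | qq => simpa [sq] using hq2
    | comm s =>
      rw [map_mul, map_inv, mul_inv_eq_one]
      simpa using stepE_qE c s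
    | pos s t hst hm hc =>
      have hts : M t s ≠ 0 := by rwa [M.symmetric t s]
      have hc' : c.c t s = 1 := by rw [← c.symm s t hst hm]; exact hc
      have h : (stepE M.toCoxeterSystem c.c s * stepE M.toCoxeterSystem c.c t) ^ M s t = 1 := by
        ext1 ⟨w, ε⟩
        rw [M.symmetric s t]
        rw [stepE_pow M.toCoxeterSystem (inv_of c) hst.symm hts, hc']
        simp
      simpa using h
    | neg s t hst hm hc =>
      have hts : M t s ≠ 0 := by rwa [M.symmetric t s]
      have hc' : c.c t s = -1 := by rw [← c.symm s t hst hm]; exact hc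
      have h : (stepE M.toCoxeterSystem c.c s * stepE M.toCoxeterSystem c.c t) ^ M s t =
          qE M.Group := by
        ext1 ⟨w, ε⟩
        rw [M.symmetric s t]
        rw [stepE_pow M.toCoxeterSystem (inv_of c) hst.symm hts, hc']
        simp [qE]
      rw [map_mul, map_inv, mul_inv_eq_one]
      simpa using h)

theorem q_ne_one [Finite B] (c : SignChoice M) : q c ≠ 1 := by
  classical
  have := Fintype.ofFinite B
  intro h
  have h1 : action c (q c) = qE M.Group := by simp [action, q]
  rw [h, map_one] at h1
  have h2 := congrArg (fun e : Equiv.Perm (M.Group × ZMod 2) => (e (1, 0)).2) h1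
  simp [qE] at h2

/-- **Theorem.** For every Coxeter group with finitely many generators and every sign choice, the
sequence `1 → ℤ/2 → W' → W → 1` is exact; in particular `q ≠ 1`. -/
theorem result {B : Type u} [Finite B] (M : CoxeterMatrix B) (c : SignChoice M) :
    Function.Injective (incl c) ∧ (incl c).range = (proj c).ker ∧
      Function.Surjective (proj c) ∧ q c ≠ 1 ∧ Nat.card (proj c).ker = 2 := by
  have hq := q_ne_one c
  have hinj : Function.Injective (incl c) := by
    rw [injective_iff_map_eq_one]
    intro a ha
    have key : ∀ b : ZMod 2, q c ^ b.val = 1 → b = 0 := by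
      intro b hb
      fin_cases b
      · rfl
      · exfalso
        apply hq
        have : q c ^ (1 : ZMod 2).val = 1 := hb
        have h1 : (1 : ZMod 2).val = 1 := rfl
        rwa [h1, pow_one] at this
    exact congrArg Multiplicative.ofAdd (key a.toAdd ha)
  have hr : (incl c).range = (proj c).ker := by rw [range_incl, ker_proj]
  refine ⟨hinj, hr, proj_surjective c, hq, ?_⟩
  rw [← hr]
  have h1 : Nat.card (incl c).range = Nat.card (Multiplicative (ZMod 2)) :=
    (Nat.card_congr (MonoidHom.ofInjective hinj).toEquiv).symm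
  rw [h1, Nat.card_eq_fintype_card, Fintype.card_multiplicative, ZMod.card]

end Pool.Agent.Results.MP_07fa45_al.SignExtension
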